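import Pool.Agent.W4.CF.Stms2

/-! Project CF: the conductor of a minimal model in terms of the parameters. -/

set_option autoImplicit false

namespace W320.CF

open Pool.Agent.W4.CF Finset

private lemma ident (a0 b0 U V : ℤ) : 4 * (Fa a0 b0 U V) ^ 3 - 27 * (Fb a0 b0 U V) ^ 2 =
    (4 * a0 ^ 3 - 27 * b0 ^ 2) * (G (9 * a0) (27 * b0) U V) ^ 2 := by
  unfold Fa Fb G; ring

private lemma Fa_hom (a0 b0 g u v : ℤ) : Fa a0 b0 (g * u) (g * v) = g ^ 2 * Fa a0 b0 u v := by
  unfold Fa; ring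

private lemma Fb_hom (a0 b0 g u v : ℤ) : Fb a0 b0 (g * u) (g * v) = g ^ 3 * Fb a0 b0 u v := by
  unfold Fb; ring

private lemma G_hom (A B g u v : ℤ) : G A B (g * u) (g * v) = g ^ 3 * G A B u v := by
  unfold G; ring

/-- a minimal model is not a scaled one -/
private lemma min_no {a b : ℤ} (h : IsMinM a b) {p : ℕ} (hp : p.Prime) (ha : (p : ℤ) ^ 4 ∣ a)
    (hb : (p : ℤ) ^ 6 ∣ b) : False := by
  obtain ⟨a', ha'⟩ := ha
  obtain ⟨b', hb'⟩ := hb
  have hp0 : (p : ℚ) ≠ 0 := by exact_mod_cast hp.ne_zero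
  have h1 := h.2 (1 / (p : ℚ)) a' b' (by positivity)
    (by rw [ha']; push_cast; field_simp) (by rw [hb']; push_cast; field_simp)
  have e : DD a b = (p : ℤ) ^ 12 * DD a' b' := by
    rw [ha', hb']; unfold DD; ring
  have hne : DD a' b' ≠ 0 := by
    intro h0
    exact h.1 (by rw [e, h0, mul_zero])
  have hpos : 0 < |DD a' b'| := abs_pos.2 hne
  rw [e, abs_mul, abs_pow, Nat.abs_cast] at h1
  have h2 : (1 : ℤ) < (p : ℤ) ^ 12 := by
    have : (1 : ℤ) < p := by exact_mod_cast hp.one_lt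
    exact one_lt_pow₀ this (by norm_num)
  nlinarith

private lemma cop {p : ℕ} (hp : p.Prime) {d : ℤ} (hd : ¬ (p : ℤ) ∣ d) : IsCoprime (p : ℤ) d := by
  rw [Int.isCoprime_iff_gcd_eq_one]
  change Nat.gcd p d.natAbs = 1
  rw [← Nat.coprime_iff_gcd_eq_one, hp.coprime_iff_not_dvd]
  intro h
  exact hd (Int.natCast_dvd.2 h)

/-- step (1): the valuation of `g` -/
private lemma val_g {D a b fa fb : ℤ} {g : ℕ} (hD : D ≠ 0) (hmin : IsMinM a b)
    (h2 : D ^ 2 * a = (g : ℤ) ^ 2 * fa) (h3 : D ^ 3 * b = (g : ℤ) ^ 3 * fb) {p : ℕ}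
    (hp : p.Prime) : g.factorization p ≤ 1 + D.natAbs.factorization p := by
  rcases Nat.eq_zero_or_pos g with hg | hg
  · rw [hg]; simp
  by_contra hcon
  push Not at hcon
  have hpp : Prime (p : ℤ) := Nat.prime_iff_prime_int.1 hp
  obtain ⟨e, d, hd, hDe⟩ := WfDvdMonoid.max_power_factor hD hpp.irreducible
  have hfac : D.natAbs.factorization p = e := by
    rw [hDe, Int.natAbs_mul, Int.natAbs_pow, Int.natAbs_natCast,
      Nat.factorization_mul (pow_ne_zero _ hp.ne_zero) (by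
        rw [Ne, Int.natAbs_eq_zero]; rintro rfl; exact hd (dvd_zero _)),
      hp.factorization_pow]
    have : d.natAbs.factorization p = 0 :=
      Nat.factorization_eq_zero_of_not_dvd fun h => hd (Int.natCast_dvd.2 h)
    simp [this]
  rw [hfac] at hcon
  have hg2 : p ^ (e + 2) ∣ g := by
    rw [hp.pow_dvd_iff_le_factorization hg.ne']; omega
  obtain ⟨g1, hg1⟩ := hg2
  have hpe : (p : ℤ) ^ e ≠ 0 := pow_ne_zero _ hpp.ne_zero
  have ea : d ^ 2 * a = (p : ℤ) ^ 4 * ((g1 : ℤ) ^ 2 * fa) := by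
    have h4 : ((p : ℤ) ^ e) ^ 2 * (d ^ 2 * a) =
        ((p : ℤ) ^ e) ^ 2 * ((p : ℤ) ^ 4 * ((g1 : ℤ) ^ 2 * fa)) := by
      calc ((p : ℤ) ^ e) ^ 2 * (d ^ 2 * a) = D ^ 2 * a := by rw [hDe]; ring
        _ = (g : ℤ) ^ 2 * fa := h2
        _ = _ := by rw [hg1]; push_cast; ring
    exact mul_left_cancel₀ (pow_ne_zero 2 hpe) h4
  have eb : d ^ 3 * b = (p : ℤ) ^ 6 * ((g1 : ℤ) ^ 3 * fb) := by
    have h4 : ((p : ℤ) ^ e) ^ 3 * (d ^ 3 * b) =
        ((p : ℤ) ^ e) ^ 3 * ((p : ℤ) ^ 6 * ((g1 : ℤ) ^ 3 * fb)) := by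
      calc ((p : ℤ) ^ e) ^ 3 * (d ^ 3 * b) = D ^ 3 * b := by rw [hDe]; ring
        _ = (g : ℤ) ^ 3 * fb := h3
        _ = _ := by rw [hg1]; push_cast; ring
    exact mul_left_cancel₀ (pow_ne_zero 3 hpe) h4
  have hc := cop hp hd
  have ha : (p : ℤ) ^ 4 ∣ a := (hc.pow (m := 4) (n := 2)).dvd_of_dvd_mul_left ⟨_, ea⟩
  have hb : (p : ℤ) ^ 6 ∣ b := (hc.pow (m := 6) (n := 3)).dvd_of_dvd_mul_left ⟨_, eb⟩
  exact min_no hmin hp ha hb

/-- `g ≤ 6 N ^ 2 g'` -/
private lemma g_le {g N : ℕ} (hg : 1 ≤ g) (hN : N ≠ 0)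
    (hv : ∀ p : ℕ, p.Prime → g.factorization p ≤ 1 + N.factorization p) :
    g ≤ radp (6 * N) g * (6 * N) * N := by
  have e1 : g = ∏ p ∈ g.primeFactors, p ^ g.factorization p :=
    (Nat.prod_factorization_pow_eq_self (by omega)).symm
  have e2 : ∏ p ∈ g.primeFactors, p ^ g.factorization p ≤
      ∏ p ∈ g.primeFactors, p * p ^ N.factorization p := by
    refine Finset.prod_le_prod' fun p hp => ?_
    have hpp := Nat.prime_of_mem_primeFactors hp
    calc p ^ g.factorization p ≤ p ^ (1 + N.factorization p) :=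
          Nat.pow_le_pow_right hpp.pos (hv p hpp)
      _ = p * p ^ N.factorization p := by rw [pow_add, pow_one]
  have e3 : ∏ p ∈ g.primeFactors, p ≤ radp (6 * N) g * (6 * N) := by
    rw [← Finset.prod_filter_mul_prod_filter_not g.primeFactors (fun p => ¬ p ∣ 6 * N)]
    refine Nat.mul_le_mul_left _ ?_
    have h6 : 6 * N ≠ 0 := by omega
    refine Nat.le_of_dvd (by omega) ?_
    refine dvd_trans ?_ (Nat.prod_primeFactors_dvd (6 * N))
    refine Finset.prod_dvd_prod_of_subset _ _ _ fun p hp => ?_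
    rw [Finset.mem_filter, not_not] at hp
    exact Nat.mem_primeFactors.2 ⟨Nat.prime_of_mem_primeFactors hp.1, hp.2, h6⟩
  have e4 : ∏ p ∈ g.primeFactors, p ^ N.factorization p ≤ N := by
    have h1 : ∏ p ∈ g.primeFactors, p ^ N.factorization p =
        ∏ p ∈ g.primeFactors ∩ N.primeFactors, p ^ N.factorization p := by
      refine (Finset.prod_subset Finset.inter_subset_left fun p hp hpn => ?_).symm
      have : p ∉ N.primeFactors := fun h => hpn (Finset.mem_inter.2 ⟨hp, h⟩)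
      rw [← Nat.support_factorization, Finsupp.notMem_support_iff] at this
      rw [this, pow_zero]
    rw [h1]
    calc ∏ p ∈ g.primeFactors ∩ N.primeFactors, p ^ N.factorization p ≤
          ∏ p ∈ N.primeFactors, p ^ N.factorization p :=
        Finset.prod_le_prod_of_subset_of_one_le' Finset.inter_subset_right fun p hp _ =>
          Nat.one_le_pow _ _ (Nat.prime_of_mem_primeFactors hp).pos
      _ = N := Nat.prod_factorization_pow_eq_self hN
  calc g = ∏ p ∈ g.primeFactors, p ^ g.factorization p := e1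
    _ ≤ ∏ p ∈ g.primeFactors, p * p ^ N.factorization p := e2
    _ = (∏ p ∈ g.primeFactors, p) * ∏ p ∈ g.primeFactors, p ^ N.factorization p :=
        Finset.prod_mul_distrib
    _ ≤ radp (6 * N) g * (6 * N) * N := Nat.mul_le_mul e3 e4

private lemma five_le {p N : ℕ} (hp : p.Prime) (h : ¬ p ∣ 6 * N) : 5 ≤ p := by
  by_contra hcon
  push Not at hcon
  have h2 := hp.two_le
  interval_cases p
  · exact h (Dvd.dvd.mul_right (by norm_num) N)
  · exact h (Dvd.dvd.mul_right (by norm_num) N)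
  · exact absurd hp (by norm_num)

theorem t_COND : S_COND := by
  intro a0 b0 hD
  set D : ℤ := 4 * a0 ^ 3 - 27 * b0 ^ 2 with hDdef
  set N : ℕ := D.natAbs with hN
  have hN0 : N ≠ 0 := Int.natAbs_ne_zero.2 hD
  refine ⟨36 * (N : ℝ) ^ 4, by positivity, ?_⟩
  intro a b u v g hg huv hmin h2 h3
  rw [Fa_hom] at h2
  rw [Fb_hom] at h3
  set Guv : ℤ := G (9 * a0) (27 * b0) u v with hG
  -- the main identity
  have hid : D ^ 5 * DD a b = (g : ℤ) ^ 6 * Guv ^ 2 := by
    have h4 : D * (D ^ 5 * DD a b) = D * ((g : ℤ) ^ 6 * Guv ^ 2) := by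
      have h5 := ident a0 b0 (g * u) (g * v)
      rw [Fa_hom, Fb_hom, G_hom, ← h2, ← h3, ← hDdef, ← hG] at h5
      calc D * (D ^ 5 * DD a b) = 4 * (D ^ 2 * a) ^ 3 - 27 * (D ^ 3 * b) ^ 2 := by
            unfold DD; ring
        _ = D * ((g : ℤ) ^ 3 * Guv) ^ 2 := h5
        _ = _ := by ring
    exact mul_left_cancel₀ hD h4
  have hDD : DD a b ≠ 0 := hmin.1
  have hGne : Guv ≠ 0 := by
    intro h0
    rw [h0] at hid
    have : D ^ 5 * DD a b ≠ 0 := mul_ne_zero (pow_ne_zero _ hD) hDD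
    apply this
    rw [hid]; ring
  have hgle := g_le (g := g) (N := N) hg hN0 (fun p hp => val_g hD hmin h2 h3 hp)
  -- the conductor
  set P1 : Finset ℕ := g.primeFactors.filter (fun p => ¬ p ∣ 6 * N) with hP1
  set P2 : Finset ℕ := Guv.natAbs.primeFactors.filter (fun p => ¬ p ∣ 6 * N * g) with hP2
  set F : ℕ → ℕ := fun p => if (p : ℤ) ∣ a then p ^ 2 else p with hF
  have hnd : ∀ {p : ℕ}, p.Prime → ¬ p ∣ 6 * N → ¬ (p : ℤ) ∣ D := by
    intro p _ h1 h4
    exact h1 (Dvd.dvd.mul_left (Int.natCast_dvd.1 h4) 6)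
  have hP1a : ∀ p ∈ P1, (p : ℤ) ∣ a ∧ (p : ℤ) ∣ DD a b := by
    intro p hp
    rw [hP1, Finset.mem_filter] at hp
    have hpp := Nat.prime_of_mem_primeFactors hp.1
    have hpz : Prime (p : ℤ) := Nat.prime_iff_prime_int.1 hpp
    have hpg : (p : ℤ) ∣ g := Int.natCast_dvd_natCast.2 (Nat.dvd_of_mem_primeFactors hp.1)
    have hpD := hnd hpp hp.2
    have ha : (p : ℤ) ∣ a := by
      have : (p : ℤ) ∣ D ^ 2 * a := by
        rw [h2]; exact Dvd.dvd.mul_right (Dvd.dvd.pow hpg (by norm_num)) _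
      rcases hpz.dvd_or_dvd this with h | h
      · exact absurd (hpz.dvd_of_dvd_pow h) hpD
      · exact h
    have hb : (p : ℤ) ∣ b := by
      have : (p : ℤ) ∣ D ^ 3 * b := by
        rw [h3]; exact Dvd.dvd.mul_right (Dvd.dvd.pow hpg (by norm_num)) _
      rcases hpz.dvd_or_dvd this with h | h
      · exact absurd (hpz.dvd_of_dvd_pow h) hpD
      · exact h
    refine ⟨ha, ?_⟩
    unfold DD
    exact dvd_sub (Dvd.dvd.mul_left (Dvd.dvd.pow ha (by norm_num)) _)
      (Dvd.dvd.mul_left (Dvd.dvd.pow hb (by norm_num)) _)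
  have hP2a : ∀ p ∈ P2, (p : ℤ) ∣ DD a b := by
    intro p hp
    rw [hP2, Finset.mem_filter] at hp
    have hpp := Nat.prime_of_mem_primeFactors hp.1
    have hpz : Prime (p : ℤ) := Nat.prime_iff_prime_int.1 hpp
    have hpG : (p : ℤ) ∣ Guv := Int.natCast_dvd.2 (Nat.dvd_of_mem_primeFactors hp.1)
    have hpD := hnd hpp (fun h => hp.2 (Dvd.dvd.mul_right h g))
    have : (p : ℤ) ∣ D ^ 5 * DD a b := by
      rw [hid]; exact Dvd.dvd.mul_left (Dvd.dvd.pow hpG (by norm_num)) _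
    rcases hpz.dvd_or_dvd this with h | h
    · exact absurd (hpz.dvd_of_dvd_pow h) hpD
    · exact h
  have hdisj : Disjoint P1 P2 := by
    rw [Finset.disjoint_left]
    intro p h1 h4
    rw [hP1, Finset.mem_filter] at h1
    rw [hP2, Finset.mem_filter] at h4
    exact h4.2 (Dvd.dvd.mul_left (Nat.dvd_of_mem_primeFactors h1.1) _)
  have hsub : P1 ∪ P2 ⊆ (DD a b).natAbs.primeFactors.filter (fun p => 5 ≤ p) := by
    intro p hp
    rw [Finset.mem_union] at hp
    rw [Finset.mem_filter, Nat.mem_primeFactors]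
    rcases hp with hp | hp
    · have hd := (hP1a p hp).2
      rw [hP1, Finset.mem_filter] at hp
      have hpp := Nat.prime_of_mem_primeFactors hp.1
      exact ⟨⟨hpp, Int.natCast_dvd.1 hd, Int.natAbs_ne_zero.2 hDD⟩, five_le hpp hp.2⟩
    · have hd := hP2a p hp
      rw [hP2, Finset.mem_filter] at hp
      have hpp := Nat.prime_of_mem_primeFactors hp.1
      exact ⟨⟨hpp, Int.natCast_dvd.1 hd, Int.natAbs_ne_zero.2 hDD⟩,
        five_le hpp (fun h => hp.2 (Dvd.dvd.mul_right h g))⟩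
  have hcond : radp (6 * N) g ^ 2 * radp (6 * N * g) Guv.natAbs ≤ condM a b := by
    calc radp (6 * N) g ^ 2 * radp (6 * N * g) Guv.natAbs
        = (∏ p ∈ P1, p ^ 2) * ∏ p ∈ P2, p := by
          unfold radp; rw [← Finset.prod_pow]
      _ ≤ (∏ p ∈ P1, F p) * ∏ p ∈ P2, F p := by
          refine Nat.mul_le_mul (le_of_eq ?_) ?_
          · refine Finset.prod_congr rfl fun p hp => ?_
            simp only [hF]
            rw [if_pos (hP1a p hp).1]
          · refine Finset.prod_le_prod' fun p hp => ?_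
            simp only [hF]
            split_ifs
            · rw [hP2, Finset.mem_filter] at hp
              exact Nat.le_self_pow (by norm_num) p
            · exact le_rfl
      _ = ∏ p ∈ P1 ∪ P2, F p := (Finset.prod_union hdisj).symm
      _ ≤ ∏ p ∈ (DD a b).natAbs.primeFactors.filter (fun p => 5 ≤ p), F p := by
          refine Finset.prod_le_prod_of_subset_of_one_le' hsub fun p hp _ => ?_
          rw [Finset.mem_filter] at hp
          have hpos := (Nat.prime_of_mem_primeFactors hp.1).pos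
          simp only [hF]
          split_ifs
          · exact Nat.one_le_pow _ _ hpos
          · exact hpos
      _ = condM a b := rfl
  have hfin : g ^ 2 * radp (6 * N * g) Guv.natAbs ≤ 36 * N ^ 4 * condM a b := by
    calc g ^ 2 * radp (6 * N * g) Guv.natAbs
        ≤ (radp (6 * N) g * (6 * N) * N) ^ 2 * radp (6 * N * g) Guv.natAbs :=
          Nat.mul_le_mul_right _ (Nat.pow_le_pow_left hgle 2)
      _ = 36 * N ^ 4 * (radp (6 * N) g ^ 2 * radp (6 * N * g) Guv.natAbs) := by ring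
      _ ≤ _ := Nat.mul_le_mul_left _ hcond
  exact_mod_cast hfin

end W320.CF
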